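import Pool.Agent.Run7.h757.MW.Stm3
import Pool.Agent.Run7.h930.MW.FEJ

/-!
# Project MW (helper757), piece AFEJ (helper382): adapted from `t_FEJ` of helper930
-/

open Finset MeasureTheory Filter Pool.Agent.Run7.h757.MW Pool.Agent.Run7.h304.MW
open Pool.Agent.Run7.h930.MW

namespace Pool.Agent.Run7.h382.MW

noncomputable section

theorem t_AFEJ : S_AFEJ := by
  refine ⟨fun Q H r => 1 - Fe H (rep Q r), fun Q H r => ⟨?_, ?_⟩, ?_, ?_⟩
  · linarith [Fe_le_one H (rep Q r)]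
  · linarith [Fe_nonneg H (rep Q r)]
  · intro Q H r _ hH _
    exact one_sub_Fe_le' H hH _
  · intro Q H M c hH hHM hMQ hc
    have hQ : 1 ≤ Q := by omega
    have hQ0 : (Q : ℂ) ≠ 0 := by exact_mod_cast (by omega : Q ≠ 0)
    have hH0 : (H : ℂ) ≠ 0 := by exact_mod_cast (by omega : H ≠ 0)
    set g : ℕ → ℂ := fun r => dft Q c r * e (-(M * rep Q r)) with hg
    -- the full sum
    have hA : ∑ r ∈ range Q, ((Fe H (rep Q r) : ℝ) : ℂ) * g r =
        (Q : ℂ) * (1 / (H : ℂ) ^ 2 * ∑ i ∈ range H, ∑ j ∈ range H, (c (M + i - j) : ℂ)) := by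
      have h1 : ∀ r ∈ range Q, ((Fe H (rep Q r) : ℝ) : ℂ) * g r = 1 / (H : ℂ) ^ 2 *
          ∑ i ∈ range H, ∑ j ∈ range H,
          ((Complex.exp (2 * Real.pi * Complex.I / Q)) ^ (j * r) *
            ((Complex.exp (2 * Real.pi * Complex.I / Q))⁻¹) ^ (i * r)) * g r := by
        intro r _
        rw [Fe_eq H Q r hQ, mul_assoc, sum_mul]
        congr 1
        refine sum_congr rfl fun i _ => ?_
        rw [sum_mul]
      rw [sum_congr rfl h1, ← mul_sum, sum_comm]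
      have h2 : ∀ i ∈ range H, ∑ r ∈ range Q, ∑ j ∈ range H,
          ((Complex.exp (2 * Real.pi * Complex.I / Q)) ^ (j * r) *
            ((Complex.exp (2 * Real.pi * Complex.I / Q))⁻¹) ^ (i * r)) * g r =
          ∑ j ∈ range H, (Q : ℂ) * (c (M + i - j) : ℂ) := by
        intro i hi
        rw [sum_comm]
        refine sum_congr rfl fun j hj => ?_
        exact main_id Q H M c hH hHM hMQ i j (mem_range.1 hi) (mem_range.1 hj)
      rw [sum_congr rfl h2]
      simp_rw [← mul_sum]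
      ring
    have hB : ∑ r ∈ range Q, g r = (Q : ℂ) * (c M : ℂ) := by
      have h1 := main_id Q H M c hH hHM hMQ 0 0 (by omega) (by omega)
      simpa [hg] using h1
    have hC : ∑ r ∈ range Q, ((1 - Fe H (rep Q r) : ℝ) : ℂ) * g r =
        ∑ r ∈ Ico 1 Q, ((1 - Fe H (rep Q r) : ℝ) : ℂ) * g r := by
      rw [range_eq_Ico, sum_eq_sum_Ico_succ_bot (by omega : 0 < Q)]
      have h0 : Fe H (rep Q 0) = 1 := by
        have hr : rep Q 0 = 0 := by simp [rep]
        have hHr : (H : ℝ) ≠ 0 := by exact_mod_cast (by omega : H ≠ 0)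
        rw [hr]
        unfold Fe
        have : ∀ j ∈ range H, e ((j : ℝ) * 0) = 1 := by
          intro j _; simp [e]
        rw [sum_congr rfl this]
        simp [hHr]
      rw [h0]
      simp
    have hD : (c M : ℂ) - 1 / (H : ℂ) ^ 2 * ∑ i ∈ range H, ∑ j ∈ range H, (c (M + i - j) : ℂ) =
        1 / (Q : ℂ) * ∑ r ∈ Ico 1 Q, ((1 - Fe H (rep Q r) : ℝ) : ℂ) * dft Q c r *
          e (-(M * rep Q r)) := by
      have h1 : ∑ r ∈ Ico 1 Q, ((1 - Fe H (rep Q r) : ℝ) : ℂ) * dft Q c r * e (-(M * rep Q r)) =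
          ∑ r ∈ Ico 1 Q, ((1 - Fe H (rep Q r) : ℝ) : ℂ) * g r := by
        refine sum_congr rfl fun r _ => ?_
        rw [hg, mul_assoc]
      rw [h1, ← hC]
      have h2 : ∑ r ∈ range Q, ((1 - Fe H (rep Q r) : ℝ) : ℂ) * g r =
          ∑ r ∈ range Q, g r - ∑ r ∈ range Q, ((Fe H (rep Q r) : ℝ) : ℂ) * g r := by
        rw [← sum_sub_distrib]
        refine sum_congr rfl fun r _ => ?_
        push_cast; ring
      rw [h2, hA, hB]
      field_simp
    have hF : c M - 1 / (H : ℝ) ^ 2 * ∑ i ∈ range H, ∑ j ∈ range H, c (M + i - j) =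
        (1 / (Q : ℂ) * ∑ r ∈ Ico 1 Q, ((1 - Fe H (rep Q r) : ℝ) : ℂ) * dft Q c r *
          e (-(M * rep Q r))).re := by
      rw [← hD]
      have h3 : (c M : ℂ) - 1 / (H : ℂ) ^ 2 * ∑ i ∈ range H, ∑ j ∈ range H, (c (M + i - j) : ℂ) =
          ((c M - 1 / (H : ℝ) ^ 2 * ∑ i ∈ range H, ∑ j ∈ range H, c (M + i - j) : ℝ) : ℂ) := by
        push_cast; rfl
      rw [h3, Complex.ofReal_re]
    rw [hF]
    exact Complex.abs_re_le_norm _

end

end Pool.Agent.Run7.h382.MW
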