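import Pool.Agent.Run7.h757.MW.Stm2
import Pool.Agent.Run7.h930.MW.DIM

/-!
# Project MW (helper757), piece DIMV (helper382): adapted from `t_DIM` of helper930
-/

open Finset MeasureTheory Filter Pool.Agent.Run7.h757.MW Pool.Agent.Run7.h930.MW

namespace Pool.Agent.Run7.h382.MW

/-- the real estimate behind the step -/
theorem dimv_step_card {k : ℕ} (hk : 2 ≤ k) (ε δ : ℝ) (hδ : 0 < δ) :
    ∀ᶠ N : ℕ in atTop,
      (N : ℝ) ^ (1 + (1 - 1 / (k : ℝ)) * ε - δ) ≤
        ((N / 4 : ℕ) : ℝ) ^ (1 - min (δ / 2) 1) *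
          ((⌊((N / 4 : ℕ) : ℝ) ^ (1 - 1 / (k : ℝ))⌋₊ : ℕ) : ℝ) ^ ε := by
  have hk0 : (2 : ℝ) ≤ k := by exact_mod_cast hk
  set θ : ℝ := 1 - 1 / (k : ℝ) with hθ
  have hθ0 : 0 < θ := by
    rw [hθ, sub_pos, div_lt_one (by linarith)]; linarith
  have hθ1 : θ < 1 := by
    rw [hθ]; have : (0 : ℝ) < 1 / k := by positivity
    linarith
  set δ' : ℝ := min (δ / 2) 1 with hδ'
  have hδ'0 : 0 < δ' := lt_min (by linarith) one_pos
  have hδ'1 : δ' ≤ 1 := min_le_right _ _
  have hδ'2 : δ' ≤ δ / 2 := min_le_left _ _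
  have hlog : Tendsto (fun N : ℕ => Real.log (N : ℝ)) atTop atTop :=
    Real.tendsto_log_atTop.comp tendsto_natCast_atTop_atTop
  filter_upwards [eventually_ge_atTop 8,
    hlog.eventually_ge_atTop ((Real.log 8 + |ε| * Real.log 16) / (δ / 2))] with N hN hl
  have hNr : (8 : ℝ) ≤ N := by exact_mod_cast hN
  have hNpos : (0 : ℝ) < N := by linarith
  set P : ℕ := N / 4 with hP
  have hP8 : (N : ℝ) / 8 ≤ P := by
    have : N ≤ 8 * P := by omega
    have : (N : ℝ) ≤ 8 * P := by exact_mod_cast this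
    linarith
  have hP1 : (1 : ℝ) ≤ P := by linarith
  have hPpos : (0 : ℝ) < P := by linarith
  have hPN : (P : ℝ) ≤ N := by
    have : P ≤ N := by omega
    exact_mod_cast this
  set R : ℕ := ⌊(P : ℝ) ^ θ⌋₊ with hR
  have hPθ1 : (1 : ℝ) ≤ (P : ℝ) ^ θ := Real.one_le_rpow hP1 hθ0.le
  have hR1 : 1 ≤ R := by
    rw [hR]; exact Nat.le_floor (by simpa using hPθ1)
  have hR1r : (1 : ℝ) ≤ R := by exact_mod_cast hR1
  have hRpos : (0 : ℝ) < R := by linarith
  have hRup : (R : ℝ) ≤ (P : ℝ) ^ θ := Nat.floor_le (by positivity)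
  have hRlo : (P : ℝ) ^ θ / 2 ≤ R := by
    have := Nat.lt_floor_add_one ((P : ℝ) ^ θ)
    rw [← hR] at this
    linarith
  have hlogP : Real.log N - Real.log 8 ≤ Real.log P := by
    rw [← Real.log_div hNpos.ne' (by norm_num)]
    exact Real.log_le_log (by positivity) hP8
  have hlogPup : Real.log P ≤ Real.log N := Real.log_le_log hPpos hPN
  have hlogRup : Real.log R ≤ θ * Real.log N := by
    calc Real.log R ≤ Real.log ((P : ℝ) ^ θ) := Real.log_le_log hRpos hRup
      _ = θ * Real.log P := Real.log_rpow hPpos θ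
      _ ≤ θ * Real.log N := mul_le_mul_of_nonneg_left hlogPup hθ0.le
  have hlog8 : 0 < Real.log 8 := Real.log_pos (by norm_num)
  have hlogRlo : θ * Real.log N - Real.log 16 ≤ Real.log R := by
    have h1 : Real.log ((P : ℝ) ^ θ / 2) ≤ Real.log R := Real.log_le_log (by positivity) hRlo
    rw [Real.log_div (by positivity) (by norm_num), Real.log_rpow hPpos] at h1
    have h2 : θ * (Real.log N - Real.log 8) ≤ θ * Real.log P :=
      mul_le_mul_of_nonneg_left hlogP hθ0.le
    have h3 : θ * Real.log 8 ≤ Real.log 8 := by nlinarith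
    have h4 : Real.log 16 = Real.log 8 + Real.log 2 := by
      rw [← Real.log_mul (by norm_num) (by norm_num)]; norm_num
    linarith
  have habs : ε * (θ * Real.log N) - |ε| * Real.log 16 ≤ ε * Real.log R := by
    have h16 : 0 < Real.log 16 := Real.log_pos (by norm_num)
    rcases le_or_gt 0 ε with h | h
    · rw [abs_of_nonneg h]
      have := mul_le_mul_of_nonneg_left hlogRlo h
      linarith
    · rw [abs_of_neg h]
      have := mul_le_mul_of_nonpos_left hlogRup h.le
      nlinarith
  have hfin : Real.log 8 + |ε| * Real.log 16 ≤ δ / 2 * Real.log N := by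
    rw [div_le_iff₀ (by linarith)] at hl; linarith
  have hlogN : 0 ≤ Real.log N := Real.log_nonneg (by linarith)
  have h5 : Real.log N - δ' * Real.log N - Real.log 8 ≤ (1 - δ') * Real.log P := by
    have h6 : (1 - δ') * (Real.log N - Real.log 8) ≤ (1 - δ') * Real.log P :=
      mul_le_mul_of_nonneg_left hlogP (by linarith)
    nlinarith
  have h7 : δ' * Real.log N ≤ δ / 2 * Real.log N := mul_le_mul_of_nonneg_right hδ'2 hlogN
  rw [Real.rpow_def_of_pos hNpos, Real.rpow_def_of_pos hRpos, Real.rpow_def_of_pos hPpos,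
    ← Real.exp_add]
  apply Real.exp_le_exp.mpr
  nlinarith

theorem t_DIMV : S_DIMV := by
  intro V hV k t η hk hη
  induction t generalizing η with
  | zero =>
    filter_upwards [eventually_ge_atTop 1] with N hN
    refine ⟨{0}, ?_, ?_⟩
    · intro a ha
      rw [Finset.mem_singleton] at ha
      subst ha
      exact ⟨Nat.zero_le _, Fin.elim0, fun i => i.elim0, by simp⟩
    · have hN1 : (1 : ℝ) ≤ N := by exact_mod_cast hN
      simp only [pow_zero, mul_one, sub_self, zero_sub, card_singleton, Nat.cast_one]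
      exact Real.rpow_le_one_of_one_le_of_nonpos hN1 (by linarith)
  | succ t ih =>
    have hk0 : (2 : ℝ) ≤ k := by exact_mod_cast hk
    have hkpos : (0 : ℝ) < k := by linarith
    set θ : ℝ := 1 - 1 / (k : ℝ) with hθ
    have hθ0 : 0 < θ := by
      rw [hθ, sub_pos, div_lt_one (by linarith)]; linarith
    have hθ1 : θ < 1 := by
      rw [hθ]; have : (0 : ℝ) < 1 / k := by positivity
      linarith
    have ih' := ih (η / 2) (by positivity)
    have htend4 : Tendsto (fun N : ℕ => N / 4) atTop atTop :=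
      Nat.tendsto_div_const_atTop (by norm_num)
    have htend : Tendsto (fun N : ℕ => ⌊((N / 4 : ℕ) : ℝ) ^ θ⌋₊) atTop atTop := by
      apply tendsto_nat_floor_atTop.comp
      apply (tendsto_rpow_atTop hθ0).comp
      exact tendsto_natCast_atTop_atTop.comp htend4
    have hev := htend.eventually ih'
    set δ : ℝ := η * (1 - θ / 2) with hδ
    have hδ0 : 0 < δ := by apply mul_pos hη; linarith
    have hcard := dimv_step_card hk ((k : ℝ) - k * θ ^ t - η / 2) δ hδ0
    have hVe := htend4.eventually (hV (min (δ / 2) 1) (lt_min (by linarith) one_pos))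
    filter_upwards [hev, hcard, hVe, eventually_ge_atTop 4] with N h1 h2 h3V hN
    obtain ⟨U, hU, hUc⟩ := h1
    set P : ℕ := N / 4 with hP
    have hP1 : 1 ≤ P := by omega
    have hPpos : (0 : ℝ) < P := by exact_mod_cast hP1
    set R : ℕ := ⌊(P : ℝ) ^ θ⌋₊ with hR
    have hRk : R ^ k ≤ P ^ (k - 1) := by
      have h3 : (R : ℝ) ≤ (P : ℝ) ^ θ := Nat.floor_le (by positivity)
      have h4 : (R : ℝ) ^ k ≤ ((P : ℝ) ^ θ) ^ k := pow_le_pow_left₀ (by positivity) h3 k
      have h5 : ((P : ℝ) ^ θ) ^ k = (P : ℝ) ^ (k - 1) := by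
        rw [← Real.rpow_natCast, ← Real.rpow_mul hPpos.le, ← Real.rpow_natCast]
        congr 1
        rw [Nat.cast_sub (by omega), hθ]
        field_simp
        norm_num
      rw [h5] at h4
      exact_mod_cast h4
    have haU : ∀ a ∈ U, a ≤ P ^ (k - 1) := fun a ha => (hU a ha).1.trans hRk
    classical
    set W : Finset ℕ := (Ioc P (2 * P)).filter fun n => n ∈ V with hW
    have hWV : (V ∩ {n : ℕ | P < n ∧ n ≤ 2 * P}).ncard = W.card := by
      have : V ∩ {n : ℕ | P < n ∧ n ≤ 2 * P} = (W : Set ℕ) := by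
        ext n
        simp only [hW, Finset.coe_filter, Finset.mem_Ioc]
        constructor
        · rintro ⟨h6, h7⟩
          exact ⟨h7, h6⟩
        · rintro ⟨h6, h7⟩
          exact ⟨h7, h6⟩
      rw [this, Set.ncard_coe_finset]
    rw [hWV] at h3V
    refine ⟨(W ×ˢ U).image fun p => p.1 ^ k + p.2, ?_, ?_⟩
    · intro a ha
      rw [Finset.mem_image] at ha
      obtain ⟨⟨x, b⟩, hxb, rfl⟩ := ha
      rw [Finset.mem_product, hW, Finset.mem_filter, Finset.mem_Ioc] at hxb
      obtain ⟨⟨⟨hx1, hx2⟩, hxV⟩, hb⟩ := hxb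
      simp only at hx1 hx2 hb hxV ⊢
      constructor
      · have h6 : x ^ k ≤ (2 * P) ^ k := Nat.pow_le_pow_left hx2 k
        have h7 : b ≤ P ^ k := (haU b hb).trans (Nat.pow_le_pow_right hP1 (by omega))
        have h8 : (4 * P) ^ k ≤ N ^ k := Nat.pow_le_pow_left (by omega) k
        have h9 : (2 * P) ^ k + P ^ k ≤ (4 * P) ^ k := by
          rw [mul_pow, mul_pow, ← Nat.succ_mul]
          apply Nat.mul_le_mul_right
          have h10 : 2 ^ k < 4 ^ k := Nat.pow_lt_pow_left (by norm_num) (by omega)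
          omega
        omega
      · obtain ⟨-, y, hy1, hy2⟩ := hU b hb
        refine ⟨Fin.cons x y, ?_, ?_⟩
        · intro i
          refine Fin.cases ?_ (fun j => ?_) i
          · simp only [Fin.cons_zero]
            exact ⟨by omega, hxV⟩
          · simpa using hy1 j
        · rw [Fin.sum_univ_succ]
          simp [hy2]
    · rw [Finset.card_image_of_injOn]
      · rw [Finset.card_product, Nat.cast_mul]
        have h12 : (k : ℝ) - k * θ ^ (t + 1) - η =
            1 + θ * ((k : ℝ) - k * θ ^ t - η / 2) - δ := by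
          have h13 : (k : ℝ) * (1 - θ) = 1 := by rw [hθ]; field_simp; ring
          rw [pow_succ, hδ]
          linear_combination h13
        rw [h12]
        exact h2.trans (mul_le_mul h3V hUc (by positivity) (Nat.cast_nonneg _))
      · rintro ⟨x, a⟩ hxa ⟨y, b⟩ hyb h
        simp only [Finset.coe_product, Set.mem_prod, Finset.mem_coe, hW, Finset.mem_filter,
          Finset.mem_Ioc] at hxa hyb
        simp only at h
        rcases lt_trichotomy x y with hlt | heq | hgt
        · exact (dim_inj hk hxa.1.1.1 (haU a hxa.2) hlt h).elim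
        · subst heq
          have : a = b := by omega
          rw [this]
        · exact (dim_inj hk hyb.1.1.1 (haU b hyb.2) hgt h.symm).elim

end Pool.Agent.Run7.h382.MW
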