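import Pool.Agent.Run7.h757.MW.Stm2
import Pool.Agent.Run7.h930.MW.FEJ

/-!
# Project MW (helper757), piece UFEJ (helper382): adapted from `t_FEJ` of helper930
-/

open Finset MeasureTheory Filter Pool.Agent.Run7.h757.MW Pool.Agent.Run7.h304.MW
open Pool.Agent.Run7.h930.MW

namespace Pool.Agent.Run7.h382.MW

noncomputable section

theorem avg_le (H M : ℕ) (c : ℕ → ℝ) (hH : 1 ≤ H) (hHM : H ≤ M) (hc : ∀ m, 0 ≤ c m) :
    1 / (H : ℝ) ^ 2 * ∑ i ∈ range H, ∑ j ∈ range H, c (M + i - j) ≤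
      1 / (H : ℝ) * ∑ m ∈ Icc (M - H) (M + H), c m := by
  have hHpos : (0 : ℝ) < H := by exact_mod_cast hH
  have h1 : ∑ i ∈ range H, ∑ j ∈ range H, c (M + i - j) ≤
      H * ∑ m ∈ Icc (M - H) (M + H), c m := by
    rw [sum_comm]
    have h2 : ∀ j ∈ range H, ∑ i ∈ range H, c (M + i - j) ≤ ∑ m ∈ Icc (M - H) (M + H), c m := by
      intro j hj
      rw [mem_range] at hj
      rw [← sum_image (s := range H) (f := c) (g := fun i => M + i - j)]
      · apply sum_le_sum_of_subset_of_nonneg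
        · intro m hm
          rw [mem_image] at hm
          obtain ⟨i, hi, rfl⟩ := hm
          rw [mem_range] at hi
          rw [mem_Icc]
          omega
        · intro m _ _
          exact hc m
      · intro a ha b hb hab
        rw [Finset.mem_coe, mem_range] at ha hb
        simp only at hab
        omega
    refine (sum_le_sum h2).trans (le_of_eq ?_)
    simp
  calc 1 / (H : ℝ) ^ 2 * ∑ i ∈ range H, ∑ j ∈ range H, c (M + i - j)
      ≤ 1 / (H : ℝ) ^ 2 * (H * ∑ m ∈ Icc (M - H) (M + H), c m) :=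
        mul_le_mul_of_nonneg_left h1 (by positivity)
    _ = 1 / (H : ℝ) * ∑ m ∈ Icc (M - H) (M + H), c m := by field_simp

theorem t_UFEJ : S_UFEJ := by
  refine ⟨fun Q H r => 1 - Fe H (rep Q r), fun Q H r => ⟨?_, ?_⟩, ?_, ?_⟩
  · linarith [Fe_le_one H (rep Q r)]
  · linarith [Fe_nonneg H (rep Q r)]
  · intro Q H r _ hH _
    exact one_sub_Fe_le' H hH _
  · intro Q H M c hH hHM hMQ hc
    have hQ : 1 ≤ Q := by omega
    have hQ0 : (Q : ℂ) ≠ 0 := by exact_mod_cast (by omega : Q ≠ 0)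
    have hH0 : (H : ℂ) ≠ 0 := by exact_mod_cast (by omega : H ≠ 0)
    set g : ℕ → ℂ := fun r => dft Q c r * e (-(M * rep Q r)) with hg
    -- the full sum
    have hA : ∑ r ∈ range Q, ((Fe H (rep Q r) : ℝ) : ℂ) * g r =
        (Q : ℂ) * (1 / (H : ℂ) ^ 2 * ∑ i ∈ range H, ∑ j ∈ range H, (c (M + i - j) : ℂ)) := by
      have h1 : ∀ r ∈ range Q, ((Fe H (rep Q r) : ℝ) : ℂ) * g r = 1 / (H : ℂ) ^ 2 *
          ∑ i ∈ range H, ∑ j ∈ range H,
          ((Complex.exp (2 * Real.pi * Complex.I / Q)) ^ (j * r) *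
            ((Complex.exp (2 * Real.pi * Complex.I / Q))⁻¹) ^ (i * r)) * g r := by
        intro r _
        rw [Fe_eq H Q r hQ, mul_assoc, sum_mul]
        congr 1
        refine sum_congr rfl fun i _ => ?_
        rw [sum_mul]
      rw [sum_congr rfl h1, ← mul_sum, sum_comm]
      have h2 : ∀ i ∈ range H, ∑ r ∈ range Q, ∑ j ∈ range H,
          ((Complex.exp (2 * Real.pi * Complex.I / Q)) ^ (j * r) *
            ((Complex.exp (2 * Real.pi * Complex.I / Q))⁻¹) ^ (i * r)) * g r =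
          ∑ j ∈ range H, (Q : ℂ) * (c (M + i - j) : ℂ) := by
        intro i hi
        rw [sum_comm]
        refine sum_congr rfl fun j hj => ?_
        exact main_id Q H M c hH hHM hMQ i j (mem_range.1 hi) (mem_range.1 hj)
      rw [sum_congr rfl h2]
      simp_rw [← mul_sum]
      ring
    have hB : ∑ r ∈ range Q, g r = (Q : ℂ) * (c M : ℂ) := by
      have h1 := main_id Q H M c hH hHM hMQ 0 0 (by omega) (by omega)
      simpa [hg] using h1
    have hC : ∑ r ∈ range Q, ((1 - Fe H (rep Q r) : ℝ) : ℂ) * g r =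
        ∑ r ∈ Ico 1 Q, ((1 - Fe H (rep Q r) : ℝ) : ℂ) * g r := by
      rw [range_eq_Ico, sum_eq_sum_Ico_succ_bot (by omega : 0 < Q)]
      have h0 : Fe H (rep Q 0) = 1 := by
        have hr : rep Q 0 = 0 := by simp [rep]
        have hHr : (H : ℝ) ≠ 0 := by exact_mod_cast (by omega : H ≠ 0)
        rw [hr]
        unfold Fe
        have : ∀ j ∈ range H, e ((j : ℝ) * 0) = 1 := by
          intro j _; simp [e]
        rw [sum_congr rfl this]
        simp [hHr]
      rw [h0]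
      simp
    have hD : (c M : ℂ) - 1 / (H : ℂ) ^ 2 * ∑ i ∈ range H, ∑ j ∈ range H, (c (M + i - j) : ℂ) =
        1 / (Q : ℂ) * ∑ r ∈ Ico 1 Q, ((1 - Fe H (rep Q r) : ℝ) : ℂ) * dft Q c r *
          e (-(M * rep Q r)) := by
      have h1 : ∑ r ∈ Ico 1 Q, ((1 - Fe H (rep Q r) : ℝ) : ℂ) * dft Q c r * e (-(M * rep Q r)) =
          ∑ r ∈ Ico 1 Q, ((1 - Fe H (rep Q r) : ℝ) : ℂ) * g r := by
        refine sum_congr rfl fun r _ => ?_
        rw [hg, mul_assoc]
      rw [h1, ← hC]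
      have h2 : ∑ r ∈ range Q, ((1 - Fe H (rep Q r) : ℝ) : ℂ) * g r =
          ∑ r ∈ range Q, g r - ∑ r ∈ range Q, ((Fe H (rep Q r) : ℝ) : ℂ) * g r := by
        rw [← sum_sub_distrib]
        refine sum_congr rfl fun r _ => ?_
        push_cast; ring
      rw [h2, hA, hB]
      field_simp
    have hE := avg_le H M c hH hHM hc
    have hF : c M - 1 / (H : ℝ) ^ 2 * ∑ i ∈ range H, ∑ j ∈ range H, c (M + i - j) =
        (1 / (Q : ℂ) * ∑ r ∈ Ico 1 Q, ((1 - Fe H (rep Q r) : ℝ) : ℂ) * dft Q c r *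
          e (-(M * rep Q r))).re := by
      rw [← hD]
      have h3 : (c M : ℂ) - 1 / (H : ℂ) ^ 2 * ∑ i ∈ range H, ∑ j ∈ range H, (c (M + i - j) : ℂ) =
          ((c M - 1 / (H : ℝ) ^ 2 * ∑ i ∈ range H, ∑ j ∈ range H, c (M + i - j) : ℝ) : ℂ) := by
        push_cast; rfl
      rw [h3, Complex.ofReal_re]
    have hG := Complex.re_le_norm (1 / (Q : ℂ) * ∑ r ∈ Ico 1 Q,
      ((1 - Fe H (rep Q r) : ℝ) : ℂ) * dft Q c r * e (-(M * rep Q r)))
    linarith

end

end Pool.Agent.Run7.h382.MW
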